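import Mathlib

/-! # MP_4befb3_co, T11: orientation of a forest given by independent vectors -/

set_option autoImplicit false

namespace Pool.Agent.HalfChrom

open Module

/-- independent edge vectors: the number of edges is less than the number of touched vertices -/
theorem orient_card_lt {V : Type} [Fintype V] [DecidableEq V] (F : Finset (V × V))
    (h : LinearIndependent ℚ
      (fun e : F => (Pi.single e.1.1 1 - Pi.single e.1.2 1 : V → ℚ))) (hne : F.Nonempty) :
    F.card < (Finset.univ.filter (fun v : V => ∃ e ∈ F, e.1 = v ∨ e.2 = v)).card := by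
  classical
  set U := Finset.univ.filter (fun v : V => ∃ e ∈ F, e.1 = v ∨ e.2 = v) with hU
  let S : Submodule ℚ (V → ℚ) := Submodule.span ℚ (Set.range
    (fun e : F => (Pi.single e.1.1 1 - Pi.single e.1.2 1 : V → ℚ)))
  let T : Submodule ℚ (V → ℚ) := Submodule.span ℚ
    ((U.image (fun u => (Pi.single u 1 : V → ℚ)) : Finset (V → ℚ)) : Set (V → ℚ))
  let φ : (V → ℚ) →ₗ[ℚ] ℚ := ∑ v, LinearMap.proj v
  have hφ : ∀ f : V → ℚ, φ f = ∑ v, f v := by
    intro f
    simp [φ]
  have hφs : ∀ u : V, φ (Pi.single u 1) = 1 := by
    intro u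
    rw [hφ]
    simp [Pi.single_apply]
  have hmemT : ∀ u ∈ U, (Pi.single u 1 : V → ℚ) ∈ T := by
    intro u hu
    apply Submodule.subset_span
    rw [Finset.coe_image]
    exact ⟨u, hu, rfl⟩
  have hle : S ≤ T := by
    apply Submodule.span_le.mpr
    rintro _ ⟨e, rfl⟩
    apply T.sub_mem
    · apply hmemT
      rw [hU, Finset.mem_filter]
      exact ⟨Finset.mem_univ _, e.1, e.2, Or.inl rfl⟩
    · apply hmemT
      rw [hU, Finset.mem_filter]
      exact ⟨Finset.mem_univ _, e.1, e.2, Or.inr rfl⟩
  have hker : S ≤ LinearMap.ker φ := by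
    apply Submodule.span_le.mpr
    rintro _ ⟨e, rfl⟩
    show _ ∈ LinearMap.ker φ
    rw [LinearMap.mem_ker, map_sub, hφs, hφs, sub_self]
  obtain ⟨e₀, he₀⟩ := hne
  have hu₀ : e₀.1 ∈ U := by
    rw [hU, Finset.mem_filter]
    exact ⟨Finset.mem_univ _, e₀, he₀, Or.inl rfl⟩
  have hlt : S < T := by
    refine lt_of_le_of_ne hle ?_
    intro hST
    have h1 := hmemT _ hu₀
    rw [← hST] at h1
    have h2 := hker h1
    rw [LinearMap.mem_ker, hφs] at h2
    exact one_ne_zero h2
  have h1 : finrank ℚ S = F.card := by
    have := finrank_span_eq_card h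
    rw [Fintype.card_coe] at this
    exact this
  have h2 : finrank ℚ T ≤ U.card :=
    (finrank_span_finset_le_card _).trans Finset.card_image_le
  have h3 := Submodule.finrank_lt_finrank_of_lt hlt
  omega

/-- some vertex lies on exactly one edge -/
theorem orient_leaf {V : Type} [Fintype V] [DecidableEq V] (F : Finset (V × V))
    (h : LinearIndependent ℚ
      (fun e : F => (Pi.single e.1.1 1 - Pi.single e.1.2 1 : V → ℚ))) (hne : F.Nonempty) :
    ∃ v w : V, v ≠ w ∧ ∃ e ∈ F, (e = (v, w) ∨ e = (w, v)) ∧
      ∀ e' ∈ F, (e'.1 = v ∨ e'.2 = v) → e' = e := by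
  classical
  have hlt := orient_card_lt F h hne
  set U := Finset.univ.filter (fun v : V => ∃ e ∈ F, e.1 = v ∨ e.2 = v) with hU
  have hex : ∃ v ∈ U, (F.filter (fun e => e.1 = v ∨ e.2 = v)).card < 2 := by
    by_contra hcon
    push Not at hcon
    have h1 := Finset.card_mul_le_card_mul (s := U) (t := F) (m := 2) (n := 2)
      (fun (v : V) (e : V × V) => e.1 = v ∨ e.2 = v)
      (fun v hv => hcon v hv)
      (fun e _ => by
        refine (Finset.card_le_card (t := {e.1, e.2}) ?_).trans Finset.card_le_two
        intro v hv
        rw [Finset.mem_bipartiteBelow] at hv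
        rw [Finset.mem_insert, Finset.mem_singleton]
        rcases hv.2 with h2 | h2
        · exact Or.inl h2.symm
        · exact Or.inr h2.symm)
    omega
  obtain ⟨v, hv, hdeg⟩ := hex
  rw [hU, Finset.mem_filter] at hv
  obtain ⟨_, e, he, hev⟩ := hv
  have huniq : ∀ e' ∈ F, (e'.1 = v ∨ e'.2 = v) → e' = e := by
    intro e' he' hev'
    have h1 : (F.filter (fun e => e.1 = v ∨ e.2 = v)).card ≤ 1 := by omega
    rw [Finset.card_le_one] at h1
    exact h1 e' (Finset.mem_filter.mpr ⟨he', hev'⟩) e (Finset.mem_filter.mpr ⟨he, hev⟩)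
  have hne' : e.1 ≠ e.2 := by
    intro heq
    have h1 := h.ne_zero ⟨e, he⟩
    apply h1
    simp only
    rw [heq, sub_self]
  rcases hev with h1 | h1
  · refine ⟨v, e.2, by rw [← h1]; exact hne', e, he, Or.inl ?_, huniq⟩
    rw [← h1]
  · refine ⟨v, e.1, by rw [← h1]; exact hne'.symm, e, he, Or.inr ?_, huniq⟩
    rw [← h1]

theorem orient {V : Type} [Fintype V] [DecidableEq V] (F : Finset (V × V))
    (h : LinearIndependent ℚ
      (fun e : F => (Pi.single e.1.1 1 - Pi.single e.1.2 1 : V → ℚ))) :
    ∃ (tgt : V → Option V) (rk : V → ℕ),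
      (∀ i j, tgt i = some j → i ≠ j ∧ ((i, j) ∈ F ∨ (j, i) ∈ F)) ∧
      (∀ e ∈ F, tgt e.1 = some e.2 ∨ tgt e.2 = some e.1) ∧
      (∀ i j, tgt i = some j → tgt j ≠ none → rk i < rk j) := by
  classical
  induction F using Finset.strongInduction with
  | H F ih =>
    rcases F.eq_empty_or_nonempty with hF | hF
    · subst hF
      refine ⟨fun _ => none, fun _ => 0, ?_, ?_, ?_⟩
      · intro i j hij
        simp at hij
      · intro e he
        simp at he
      · intro i j hij
        simp at hij
    · obtain ⟨v, w, hvw, e, he, hevw, huniq⟩ := orient_leaf F h hF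
      have hsub : F.erase e ⊂ F := Finset.erase_ssubset he
      have hind : LinearIndependent ℚ
          (fun e : (F.erase e : Finset (V × V)) =>
            (Pi.single e.1.1 1 - Pi.single e.1.2 1 : V → ℚ)) := by
        have h1 := h.comp (fun x : (F.erase e : Finset (V × V)) =>
          (⟨x.1, Finset.mem_of_mem_erase x.2⟩ : F)) (by
            intro x y hxy
            have h2 := congrArg Subtype.val hxy
            exact Subtype.ext h2)
        exact h1
      obtain ⟨tgt, rk, p1, p2, p3⟩ := ih _ hsub hind
      have hunt : ∀ e' ∈ F.erase e, e'.1 ≠ v ∧ e'.2 ≠ v := by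
        intro e' he'
        rw [Finset.mem_erase] at he'
        constructor
        · intro h1
          exact he'.1 (huniq e' he'.2 (Or.inl h1))
        · intro h1
          exact he'.1 (huniq e' he'.2 (Or.inr h1))
      have hin : ∀ i, tgt i ≠ some v := by
        intro i hi
        rcases (p1 i v hi).2 with h1 | h1
        · exact (hunt _ h1).2 rfl
        · exact (hunt _ h1).1 rfl
      refine ⟨fun i => if i = v then some w else tgt i, fun i => if i = v then 0 else rk i + 1,
        ?_, ?_, ?_⟩
      · intro i j hij
        simp only at hij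
        split_ifs at hij with h1
        · subst h1
          have h2 : w = j := Option.some.inj hij
          subst h2
          refine ⟨hvw, ?_⟩
          rcases hevw with h3 | h3
          · left; rw [← h3]; exact he
          · right; rw [← h3]; exact he
        · obtain ⟨q1, q2⟩ := p1 i j hij
          refine ⟨q1, ?_⟩
          rcases q2 with q2 | q2
          · exact Or.inl (Finset.mem_of_mem_erase q2)
          · exact Or.inr (Finset.mem_of_mem_erase q2)
      · intro e' he'
        by_cases h1 : e' = e
        · subst h1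
          rcases hevw with h3 | h3
          · left
            rw [h3]
            simp
          · right
            rw [h3]
            simp
        · have h2 : e' ∈ F.erase e := Finset.mem_erase.mpr ⟨h1, he'⟩
          obtain ⟨q1, q2⟩ := hunt e' h2
          simp only
          rw [if_neg q1, if_neg q2]
          exact p2 e' h2
      · intro i j hij hj
        simp only at hij hj ⊢
        split_ifs at hij with h1
        · have h2 : w = j := Option.some.inj hij
          subst h2
          rw [if_pos h1, if_neg (Ne.symm hvw)]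
          omega
        · have h2 : j ≠ v := by
            rintro rfl
            exact hin i hij
          rw [if_neg h2] at hj
          rw [if_neg h1, if_neg h2]
          have := p3 i j hij hj
          omega

end Pool.Agent.HalfChrom
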